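import Pool.Agent.H751R3.Beu.Conv

/-!
# Eigenfunctions of the Beurling operator: general measures with finite mass on a strip

The argument of `Pool.Agent.H751R3.Beu` for one weight, for an arbitrary measure on the plane
which is finite on the strip `|Re z| ≤ 2`.
-/

set_option autoImplicit false

namespace Pool.Agent.Y443.BE

open MeasureTheory Filter Topology Set Complex Pool.Agent.H751R3.Beu

variable {μ : Measure ℂ}

theorem memLp_of_strip' (hμ : μ strip < ⊤) {h : ℂ → ℂ} (hm : Measurable h) {C : ℝ}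
    (hC : ∀ z, ‖h z‖ ≤ C) (h0 : ∀ z, z ∉ strip → h z = 0) (q : ENNReal) : MemLp h q μ := by
  have h1 : h = strip.indicator h := by
    funext z
    by_cases hz : z ∈ strip
    · rw [indicator_of_mem hz]
    · rw [indicator_of_notMem hz, h0 z hz]
  rw [h1, memLp_indicator_iff_restrict meas_strip]
  haveI : IsFiniteMeasure (μ.restrict strip) :=
    ⟨by rw [Measure.restrict_apply_univ]; exact hμ⟩
  exact MemLp.of_bound hm.aestronglyMeasurable C (Eventually.of_forall hC)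

theorem ef_memLp' (hμ : μ strip < ⊤) (q : ENNReal) : MemLp ef q μ := by
  obtain ⟨C, _, hC⟩ := bm_deriv_bdd
  refine memLp_of_strip' hμ ef_cont.measurable (C := C) (fun z => ?_) (fun z => ef_strip) q
  unfold ef g0
  rw [Complex.norm_real]
  exact hC _

theorem Dn_memLp' (hμ : μ strip < ⊤) {c : ℂ} (hc : ‖c‖ ≤ 1) (n : ℕ) (q : ENNReal) :
    MemLp (Dn c n) q μ := by
  obtain ⟨C, hC0, hC⟩ := bm_deriv_bdd
  exact memLp_of_strip' hμ (Dn_cont c n).measurable (Dn_bdd hC hC0 hc n)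
    (fun z hz => Dn_strip c n hz) q

theorem Dn_conv' (hμ : μ strip < ⊤) {c : ℂ} (hc : ‖c‖ ≤ 1) {p : ℝ} (hp : 0 < p) :
    Tendsto (fun n => eLpNorm (Dn c n - ef) (ENNReal.ofReal p) μ) atTop (𝓝 0) := by
  obtain ⟨C, hC0, hC⟩ := bm_deriv_bdd
  have h1 : ∀ n, eLpNorm (Dn c n - ef) (ENNReal.ofReal p) μ =
      (∫⁻ z, ‖(Dn c n - ef) z‖ₑ ^ p ∂μ) ^ (1 / p) := by
    intro n
    rw [eLpNorm_eq_lintegral_rpow_enorm_toReal (by simpa using hp) (by simp),
      ENNReal.toReal_ofReal hp.le]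
  simp_rw [h1]
  have h2 : Tendsto (fun n => ∫⁻ z, ‖(Dn c n - ef) z‖ₑ ^ p ∂μ) atTop
      (𝓝 (∫⁻ _ : ℂ, 0 ∂μ)) := by
    refine tendsto_lintegral_of_dominated_convergence
      (strip.indicator fun _ => ENNReal.ofReal (3 * C) ^ p) (fun n => ?_) (fun n => ?_) ?_ ?_
    · exact (((Dn_cont c n).sub ef_cont).measurable.enorm).pow_const _
    · refine Eventually.of_forall fun z => ?_
      by_cases hz : z ∈ strip
      · rw [indicator_of_mem hz]
        refine ENNReal.rpow_le_rpow ?_ hp.le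
        rw [← ofReal_norm]
        refine ENNReal.ofReal_le_ofReal ?_
        refine (norm_sub_le _ _).trans ?_
        have h3 := Dn_bdd hC hC0 hc n z
        have h4 : ‖ef z‖ ≤ C := by
          unfold ef g0
          rw [Complex.norm_real]
          exact hC _
        linarith
      · have h3 : (Dn c n - ef) z = 0 := by
          rw [Pi.sub_apply, Dn_strip c n hz, ef_strip hz, sub_zero]
        rw [indicator_of_notMem hz]
        simp only [h3, enorm_zero, ENNReal.zero_rpow_of_pos hp, le_refl]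
    · rw [lintegral_indicator meas_strip, setLIntegral_const]
      exact ENNReal.mul_ne_top (ENNReal.rpow_ne_top_of_nonneg hp.le ENNReal.ofReal_ne_top)
        hμ.ne
    · refine Eventually.of_forall fun z => ?_
      have h3 : Tendsto (fun n => Dn c n z - ef z) atTop (𝓝 0) := by
        have := (Dn_tendsto c z).sub_const (ef z)
        rwa [sub_self] at this
      have h4 : Tendsto (fun n => ‖Dn c n z - ef z‖ₑ) atTop (𝓝 0) := by
        have := h3.enorm
        rwa [enorm_zero] at this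
      have h5 := h4.ennrpow_const p
      rw [ENNReal.zero_rpow_of_pos hp] at h5
      exact h5
  rw [lintegral_zero] at h2
  have h6 := h2.ennrpow_const (1 / p)
  rwa [ENNReal.zero_rpow_of_pos (by positivity)] at h6

/-- Every bounded operator on `L^p(μ)` which agrees with the Beurling operator on the functions
`∂φ/∂z̄` fixes `ef`. -/
theorem fix' (hμ : μ strip < ⊤) {p : ℝ} (hp : 1 < p) (S : (ℂ → ℂ) → ℂ → ℂ)
    (hmem : ∀ f, MemLp f (ENNReal.ofReal p) μ → MemLp (S f) (ENNReal.ofReal p) μ)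
    (hlin : ∀ f h : ℂ → ℂ, MemLp f (ENNReal.ofReal p) μ →
      MemLp h (ENNReal.ofReal p) μ → ∀ c : ℂ,
      S (fun z => c * f z + h z) =ᵐ[μ] fun z => c * S f z + S h z)
    {C : ℝ} (hC : ∀ f, MemLp f (ENNReal.ofReal p) μ →
      eLpNorm (S f) (ENNReal.ofReal p) μ ≤
        ENNReal.ofReal C * eLpNorm f (ENNReal.ofReal p) μ)
    (hS : ∀ φ : ℂ → ℂ, ContDiff ℝ ((⊤ : ℕ∞) : WithTop ℕ∞) φ → HasCompactSupport φ →
      S (dbar φ) =ᵐ[μ] dz φ) : S ef =ᵐ[μ] ef := by
  have hI : ‖(I : ℂ)‖ ≤ 1 := by rw [Complex.norm_I]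
  have hI' : ‖(-I : ℂ)‖ ≤ 1 := by rw [norm_neg, Complex.norm_I]
  have hp0 : 0 < p := by linarith
  have hp1 : 1 ≤ ENNReal.ofReal p := by
    rw [ENNReal.one_le_ofReal]; exact hp.le
  have h1 : ∀ n, S (Dn I n) =ᵐ[μ] Dn (-I) n := by
    intro n
    have h2 := hS (tf n) (tf_smooth n) (tf_compact n)
    have h3 : dbar (tf n) = Dn I n := by funext z; exact dbar_tf n z
    have h4 : dz (tf n) = Dn (-I) n := by funext z; exact dz_tf n z
    rwa [h3, h4] at h2
  have hm := ef_memLp' hμ (ENNReal.ofReal p)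
  have h2 : ∀ n, eLpNorm (S ef - ef) (ENNReal.ofReal p) μ ≤
      ENNReal.ofReal C * eLpNorm (Dn I n - ef) (ENNReal.ofReal p) μ +
        eLpNorm (Dn (-I) n - ef) (ENNReal.ofReal p) μ := by
    intro n
    have hmn := Dn_memLp' hμ hI n (ENNReal.ofReal p)
    have hmn' := Dn_memLp' hμ hI' n (ENNReal.ofReal p)
    have e1 : S (Dn I n - ef) =ᵐ[μ] fun z => Dn (-I) n z - S ef z := by
      have h3 := hlin ef (Dn I n) hm hmn (-1)
      have h4 : (fun z => -1 * ef z + Dn I n z) = Dn I n - ef := by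
        funext z; rw [Pi.sub_apply]; ring
      rw [h4] at h3
      filter_upwards [h3, h1 n] with z hz hz2
      rw [hz, hz2]; ring
    have e2 : S ef - ef =ᵐ[μ] (Dn (-I) n - ef) - S (Dn I n - ef) := by
      filter_upwards [e1] with z hz
      simp only [Pi.sub_apply] at hz ⊢
      rw [hz]; ring
    rw [eLpNorm_congr_ae e2]
    refine (eLpNorm_sub_le (hmn'.1.sub hm.1) (hmem _ (hmn.sub hm)).1 hp1).trans ?_
    rw [add_comm]
    gcongr
    exact hC _ (hmn.sub hm)
  have h3 : Tendsto (fun n => ENNReal.ofReal C * eLpNorm (Dn I n - ef) (ENNReal.ofReal p) μ +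
        eLpNorm (Dn (-I) n - ef) (ENNReal.ofReal p) μ) atTop (𝓝 0) := by
    have h4 := (ENNReal.Tendsto.const_mul (Dn_conv' hμ hI hp0)
      (Or.inr ENNReal.ofReal_ne_top : (0 : ENNReal) ≠ 0 ∨ ENNReal.ofReal C ≠ ⊤)).add
      (Dn_conv' hμ hI' hp0)
    rwa [mul_zero, add_zero] at h4
  have h4 : eLpNorm (S ef - ef) (ENNReal.ofReal p) μ = 0 :=
    le_antisymm (ge_of_tendsto' h3 h2) bot_le
  rw [eLpNorm_eq_zero_iff ((hmem _ hm).1.sub hm.1) (by simpa using hp0)] at h4
  filter_upwards [h4] with z hz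
  simpa [sub_eq_zero] using hz

/-! ### Change of variables `z ↦ c z` -/

/-- Multiplication by `c` as a measurable equivalence. -/
noncomputable def mc (c : ℂ) (hc : c ≠ 0) : ℂ ≃ᵐ ℂ := (Homeomorph.mulLeft₀ c hc).toMeasurableEquiv

theorem mc_apply {c : ℂ} (hc : c ≠ 0) (z : ℂ) : mc c hc z = c * z := rfl

theorem mc_symm_apply {c : ℂ} (hc : c ≠ 0) (z : ℂ) : (mc c hc).symm z = c⁻¹ * z := rfl

theorem memLp_mc {c : ℂ} (hc : c ≠ 0) {f : ℂ → ℂ} {q : ENNReal} :
    MemLp f q (μ.map (mc c hc)) ↔ MemLp (fun z => f (c * z)) q μ :=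
  (mc c hc).memLp_map_measure_iff

theorem eLpNorm_mc {c : ℂ} (hc : c ≠ 0) {f : ℂ → ℂ} {q : ENNReal} :
    eLpNorm f q (μ.map (mc c hc)) = eLpNorm (fun z => f (c * z)) q μ :=
  (mc c hc).measurableEmbedding.eLpNorm_map_measure

theorem ae_mc {c : ℂ} (hc : c ≠ 0) {P : ℂ → Prop} :
    (∀ᵐ z ∂(μ.map (mc c hc)), P z) ↔ ∀ᵐ z ∂μ, P (c * z) :=
  (mc c hc).measurableEmbedding.ae_map_iff

theorem ae_back {c : ℂ} (hc : c ≠ 0) {P : ℂ → Prop} :
    (∀ᵐ z ∂(μ.map (mc c hc)), P (c⁻¹ * z)) ↔ ∀ᵐ z ∂μ, P z := by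
  rw [ae_mc]
  have : ∀ z : ℂ, c⁻¹ * (c * z) = z := fun z => by rw [← mul_assoc, inv_mul_cancel₀ hc, one_mul]
  simp only [this]

theorem fderiv_comp_mul {φ : ℂ → ℂ} (hφ : Differentiable ℝ φ) (c z v : ℂ) :
    fderiv ℝ (fun z => φ (c * z)) z v = (c * v).re * fderiv ℝ φ (c * z) 1 +
      (c * v).im * fderiv ℝ φ (c * z) I := by
  have h : ∀ v : ℂ, fderiv ℝ (fun z => φ (c * z)) z v = fderiv ℝ φ (c * z) (c * v) := by
    intro v
    have h1 : HasFDerivAt (fun z : ℂ => c * z) (ContinuousLinearMap.mul ℝ ℂ c) z :=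
      (ContinuousLinearMap.mul ℝ ℂ c).hasFDerivAt
    have h2 := ((hφ (c * z)).hasFDerivAt).comp z h1
    have h3 : fderiv ℝ (fun z => φ (c * z)) z = _ := h2.fderiv
    rw [h3]
    rfl
  have h4 : ∀ v : ℂ, fderiv ℝ φ (c * z) v = v.re * fderiv ℝ φ (c * z) 1 +
      v.im * fderiv ℝ φ (c * z) I := by
    intro v
    have h5 : v = v.re • (1 : ℂ) + v.im • I := by
      rw [Complex.real_smul, Complex.real_smul, mul_one, Complex.re_add_im]
    conv_lhs => rw [h5, map_add, map_smul, map_smul]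
    rw [Complex.real_smul, Complex.real_smul]
  rw [h, h4]

theorem dbar_comp {φ : ℂ → ℂ} (hφ : Differentiable ℝ φ) (c : ℂ) (z : ℂ) :
    dbar (fun z => φ (c * z)) z = (starRingEnd ℂ) c * dbar φ (c * z) := by
  unfold dbar
  rw [fderiv_comp_mul hφ, fderiv_comp_mul hφ]
  have e1 : ((starRingEnd ℂ) c : ℂ) = (c.re : ℂ) - c.im * I := by
    apply Complex.ext <;> simp
  rw [e1]
  simp only [mul_one, Complex.mul_re, Complex.mul_im, Complex.I_re, Complex.I_im, mul_zero,
    zero_sub, add_zero, Complex.ofReal_neg]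
  have hI := Complex.I_mul_I
  linear_combination (c.im * fderiv ℝ φ (c * z) I * (1 / 2)) * hI

theorem dz_comp {φ : ℂ → ℂ} (hφ : Differentiable ℝ φ) (c : ℂ) (z : ℂ) :
    dz (fun z => φ (c * z)) z = c * dz φ (c * z) := by
  unfold dz
  rw [fderiv_comp_mul hφ, fderiv_comp_mul hφ]
  have e1 : c = (c.re : ℂ) + c.im * I := (Complex.re_add_im c).symm
  have e2 : c * ((fderiv ℝ φ (c * z) 1 - I * fderiv ℝ φ (c * z) I) / 2) =
      ((c.re : ℂ) + c.im * I) * ((fderiv ℝ φ (c * z) 1 - I * fderiv ℝ φ (c * z) I) / 2) := by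
    rw [← e1]
  rw [e2]
  simp only [mul_one, Complex.mul_re, Complex.mul_im, Complex.I_re, Complex.I_im, mul_zero,
    zero_sub, add_zero, Complex.ofReal_neg]
  have hI := Complex.I_mul_I
  linear_combination (c.im * fderiv ℝ φ (c * z) I * (1 / 2)) * hI

end Pool.Agent.Y443.BE
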