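import Pool.Agent.Y443.BE.Rot

/-!
# Principal values and linear independence
-/

set_option autoImplicit false

namespace Pool.Agent.Y443.BE

open MeasureTheory Filter Topology Set Complex Pool.Agent.H751R3.Beu

theorem map_volume {c : ℂ} (hc : c ≠ 0) :
    (volume : Measure ℂ).map (mc c hc) = ENNReal.ofReal (‖c‖ ^ 2)⁻¹ • volume := by
  have hdet : LinearMap.det (Algebra.lmul ℝ ℂ c : ℂ →ₗ[ℝ] ℂ) = ‖c‖ ^ 2 := by
    rw [← Algebra.norm_apply, Algebra.norm_complex_apply, Complex.normSq_eq_norm_sq]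
  have hpos : 0 < ‖c‖ ^ 2 := by
    have := norm_pos_iff.2 hc
    positivity
  have h := Measure.map_linearMap_addHaar_eq_smul_addHaar (μ := (volume : Measure ℂ))
    (f := (Algebra.lmul ℝ ℂ c : ℂ →ₗ[ℝ] ℂ)) (by rw [hdet]; exact hpos.ne')
  rw [hdet, abs_of_pos (inv_pos.2 hpos)] at h
  exact h

theorem integral_comp_mc {c : ℂ} (hc : c ≠ 0) (h : ℂ → ℂ) :
    ∫ z, h (c * z) = ((‖c‖ ^ 2)⁻¹ : ℝ) • ∫ z, h z := by
  have e := integral_map_equiv (μ := (volume : Measure ℂ)) (mc c hc) h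
  rw [map_volume hc, integral_smul_measure, ENNReal.toReal_ofReal (by positivity)] at e
  exact e.symm

theorem integrable_comp_mc {E : Type*} [NormedAddCommGroup E] {c : ℂ} (hc : c ≠ 0) {h : ℂ → E}
    (hh : Integrable h) :
    Integrable fun z => h (c * z) := by
  have h1 : Integrable h ((volume : Measure ℂ).map (mc c hc)) := by
    rw [map_volume hc]
    exact hh.smul_measure ENNReal.ofReal_ne_top
  exact (integrable_map_equiv (mc c hc) h).1 h1

theorem ind_mc {c : ℂ} (hc : c ≠ 0) (z : ℂ) (ε : ℝ) (ζ : ℂ) :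
    {ζ : ℂ | ε < ‖z - ζ‖}.indicator (fun ζ => efc c ζ / (z - ζ) ^ 2) ζ =
      c ^ 2 * {u : ℂ | ‖c‖ * ε < ‖c * z - u‖}.indicator
        (fun u => g0 u.re / (c * z - u) ^ 2) (c * ζ) := by
  have hpos := norm_pos_iff.2 hc
  have h1 : ‖c * z - c * ζ‖ = ‖c‖ * ‖z - ζ‖ := by rw [← mul_sub, norm_mul]
  by_cases h : ε < ‖z - ζ‖
  · rw [indicator_of_mem (show ζ ∈ {ζ : ℂ | ε < ‖z - ζ‖} from h),
      indicator_of_mem (show c * ζ ∈ {u : ℂ | ‖c‖ * ε < ‖c * z - u‖} by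
        change ‖c‖ * ε < ‖c * z - c * ζ‖
        rw [h1]
        exact mul_lt_mul_of_pos_left h hpos)]
    rw [← mul_sub, mul_pow, ← mul_div_assoc, mul_div_mul_left _ _ (pow_ne_zero 2 hc)]
    rfl
  · rw [indicator_of_notMem (show ζ ∉ {ζ : ℂ | ε < ‖z - ζ‖} from h),
      indicator_of_notMem (show c * ζ ∉ {u : ℂ | ‖c‖ * ε < ‖c * z - u‖} by
        intro h2
        change ‖c‖ * ε < ‖c * z - c * ζ‖ at h2
        rw [h1] at h2
        exact h (lt_of_mul_lt_mul_left h2 hpos.le)), mul_zero]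

theorem meas_out' (z : ℂ) (ε : ℝ) : MeasurableSet {ζ : ℂ | ε < ‖z - ζ‖} := meas_out z ε

theorem int_c {c : ℂ} (hc : c ≠ 0) (z : ℂ) {ε : ℝ} (hε : 0 < ε) :
    IntegrableOn (fun ζ : ℂ => efc c ζ / (z - ζ) ^ 2) {ζ : ℂ | ε < ‖z - ζ‖} := by
  rw [← integrable_indicator_iff (meas_out z ε)]
  have h1 := int_trunc g0_cont g0_compact (c * z) (mul_pos (norm_pos_iff.2 hc) hε)
  rw [← integrable_indicator_iff (meas_out (c * z) (‖c‖ * ε))] at h1
  have h2 := (integrable_comp_mc hc h1).const_mul (c ^ 2)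
  refine h2.congr (Eventually.of_forall fun ζ => ?_)
  exact (ind_mc hc z ε ζ).symm

theorem pv_c {c : ℂ} (hc : c ≠ 0) (z : ℂ) :
    Tendsto (fun ε : ℝ => -(1 / (Real.pi : ℂ)) *
      ∫ ζ in {ζ : ℂ | ε < ‖z - ζ‖}, efc c ζ / (z - ζ) ^ 2) (𝓝[>] 0)
      (𝓝 (c / (starRingEnd ℂ) c * efc c z)) := by
  have hpos := norm_pos_iff.2 hc
  have h1 := pv g0_cont g0_compact (c * z)
  have h2 : Tendsto (fun ε : ℝ => ‖c‖ * ε) (𝓝[>] 0) (𝓝[>] 0) := by
    refine tendsto_nhdsWithin_iff.2 ⟨?_, ?_⟩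
    · have : Tendsto (fun ε : ℝ => ‖c‖ * ε) (𝓝 0) (𝓝 (‖c‖ * 0)) :=
        (continuous_const.mul continuous_id).tendsto 0
      rw [mul_zero] at this
      exact this.mono_left nhdsWithin_le_nhds
    · filter_upwards [self_mem_nhdsWithin] with ε hε
      exact mul_pos hpos hε
  have h3 := (h1.comp h2).const_mul (c / (starRingEnd ℂ) c)
  refine h3.congr fun ε => ?_
  have h4 : ∫ ζ in {ζ : ℂ | ε < ‖z - ζ‖}, efc c ζ / (z - ζ) ^ 2 =
      c / (starRingEnd ℂ) c * ∫ ζ in {ζ : ℂ | ‖c‖ * ε < ‖c * z - ζ‖},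
        g0 ζ.re / (c * z - ζ) ^ 2 := by
    rw [← integral_indicator (meas_out z ε), ← integral_indicator (meas_out (c * z) (‖c‖ * ε))]
    have h5 : (fun ζ => {ζ : ℂ | ε < ‖z - ζ‖}.indicator (fun ζ => efc c ζ / (z - ζ) ^ 2) ζ) =
        fun ζ => c ^ 2 * {u : ℂ | ‖c‖ * ε < ‖c * z - u‖}.indicator
          (fun u => g0 u.re / (c * z - u) ^ 2) (c * ζ) := funext (ind_mc hc z ε)
    rw [h5, integral_const_mul, integral_comp_mc hc, Complex.real_smul, ← mul_assoc]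
    congr 1
    have h6 : ((‖c‖ ^ 2 : ℝ) : ℂ) = c * (starRingEnd ℂ) c := by
      rw [Complex.mul_conj, Complex.normSq_eq_norm_sq]
    rw [Complex.ofReal_inv, h6]
    have := conj_ne hc
    field_simp
  simp only [Function.comp_apply]
  rw [h4]
  ring

/-- The dilates of `ef` have disjoint supports. -/
theorem g0_zero_small {x : ℝ} (h : |x| < 1) : g0 x = 0 := by
  have h1 : bf =ᶠ[𝓝 x] fun _ => 1 := by
    have : {y : ℝ | |y| < 1} ∈ 𝓝 x := (isOpen_lt continuous_abs continuous_const).mem_nhds h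
    filter_upwards [this] with y hy
    exact bm_one (le_of_lt hy)
  have h2 : bd x = 0 := by
    unfold bd
    rw [h1.deriv_eq, deriv_const]
  unfold g0
  rw [h2, Complex.ofReal_zero]

theorem g0_zero_large {x : ℝ} (h : 2 < |x|) : g0 x = 0 := by
  unfold g0
  rw [deriv_zero h, Complex.ofReal_zero]

theorem g0_supp {x : ℝ} (h : g0 x ≠ 0) : 1 ≤ |x| ∧ |x| ≤ 2 := by
  constructor
  · by_contra h1
    exact h (g0_zero_small (not_le.1 h1))
  · by_contra h1
    exact h (g0_zero_large (not_le.1 h1))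

/-- The eigenfunctions `z ↦ ef (3^j c z)` are linearly independent. -/
theorem indep {c : ℂ} (hc : c ≠ 0) (s : Finset ℕ) (a : ℕ → ℂ)
    (h : ∀ z : ℂ, ∑ j ∈ s, a j * efc (3 ^ j * c) z = 0) : ∀ j ∈ s, a j = 0 := by
  intro i hi
  obtain ⟨x, hx⟩ := g0_ne
  have hs := g0_supp hx
  have h1 := h (c⁻¹ * ((3 : ℂ) ^ i)⁻¹ * (x : ℂ))
  have h3 : (3 : ℂ) ^ i ≠ 0 := pow_ne_zero _ (by norm_num)
  have e : ∀ j : ℕ, efc (3 ^ j * c) (c⁻¹ * ((3 : ℂ) ^ i)⁻¹ * (x : ℂ)) =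
      g0 ((3 : ℝ) ^ j / 3 ^ i * x) := by
    intro j
    have : (3 : ℂ) ^ j * c * (c⁻¹ * ((3 : ℂ) ^ i)⁻¹ * (x : ℂ)) =
        (((3 : ℝ) ^ j / 3 ^ i * x : ℝ) : ℂ) := by
      push_cast
      field_simp
    unfold efc ef
    rw [this, Complex.ofReal_re]
  rw [Finset.sum_eq_single i] at h1
  · rw [e, div_self (by positivity), one_mul] at h1
    exact (mul_eq_zero.1 h1).resolve_right hx
  · intro j _ hj
    rw [e]
    have hz : g0 ((3 : ℝ) ^ j / 3 ^ i * x) = 0 := by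
      rcases lt_or_gt_of_ne hj with hlt | hlt
      · apply g0_zero_small
        rw [abs_mul, abs_of_pos (by positivity : (0 : ℝ) < 3 ^ j / 3 ^ i)]
        have h5 : (3 : ℝ) ^ j / 3 ^ i ≤ 1 / 3 := by
          rw [div_le_div_iff₀ (by positivity) (by norm_num), one_mul, ← pow_succ]
          exact pow_le_pow_right₀ (by norm_num) hlt
        have h6 := hs.2
        nlinarith [abs_nonneg x]
      · apply g0_zero_large
        rw [abs_mul, abs_of_pos (by positivity : (0 : ℝ) < 3 ^ j / 3 ^ i)]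
        have h5 : (3 : ℝ) ≤ (3 : ℝ) ^ j / 3 ^ i := by
          rw [le_div_iff₀ (by positivity), mul_comm, ← pow_succ]
          exact pow_le_pow_right₀ (by norm_num) hlt
        have h6 := hs.1
        nlinarith [abs_nonneg x]
    rw [hz, mul_zero]
  · intro h5; exact absurd hi h5

end Pool.Agent.Y443.BE
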