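import Pool.Agent.Y443.BE.Gen

/-!
# Eigenfunctions of the Beurling operator: all directions and all widths
-/

set_option autoImplicit false

namespace Pool.Agent.Y443.BE

open MeasureTheory Filter Topology Set Complex Pool.Agent.H751R3.Beu

variable {μ : Measure ℂ}

/-- The functions `ef (c z)`, which depend on `Re (c z)` only. -/
noncomputable def efc (c : ℂ) (z : ℂ) : ℂ := ef (c * z)

theorem conj_ne {c : ℂ} (hc : c ≠ 0) : (starRingEnd ℂ) c ≠ 0 := by
  simpa using hc

theorem efc_cont (c : ℂ) : Continuous (efc c) := ef_cont.comp (continuous_const.mul continuous_id)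

theorem strip_mc {c : ℂ} (hc : c ≠ 0) :
    μ.map (mc c hc) strip = μ {z | |(c * z).re| ≤ 2} := by
  rw [(mc c hc).map_apply]
  rfl

theorem dbar_memLp [IsFiniteMeasureOnCompacts μ] {φ : ℂ → ℂ}
    (hφ : ContDiff ℝ ((⊤ : ℕ∞) : WithTop ℕ∞) φ) (hφc : HasCompactSupport φ) (q : ENNReal) :
    MemLp (dbar φ) q μ := by
  have h1 : Continuous (fderiv ℝ φ) := hφ.continuous_fderiv (by simp)
  have h2 : HasCompactSupport (fderiv ℝ φ) := hφc.fderiv (𝕜 := ℝ)
  have h3 : Continuous (dbar φ) := by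
    unfold dbar
    fun_prop
  have h4 : HasCompactSupport (dbar φ) :=
    h2.comp_left (g := fun D : ℂ →L[ℝ] ℂ => (D 1 + I * D I) / 2) (by simp)
  exact h3.memLp_of_hasCompactSupport h4

theorem efc_memLp {c : ℂ} (hc : c ≠ 0) (hμ : μ {z | |(c * z).re| ≤ 2} < ⊤) (q : ENNReal) :
    MemLp (efc c) q μ := by
  rw [← strip_mc hc] at hμ
  exact (memLp_mc hc).1 (ef_memLp' hμ q)

/-- Every bounded operator on `L^p(μ)` which agrees with the Beurling operator on the functions
`∂φ/∂z̄` has the eigenfunction `efc c` with the eigenvalue `c / c̄`. -/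
theorem fixc [IsFiniteMeasureOnCompacts μ] {c : ℂ} (hc : c ≠ 0) (hμ : μ {z | |(c * z).re| ≤ 2} < ⊤) {p : ℝ} (hp : 1 < p)
    (S : (ℂ → ℂ) → ℂ → ℂ)
    (hmem : ∀ f, MemLp f (ENNReal.ofReal p) μ → MemLp (S f) (ENNReal.ofReal p) μ)
    (hlin : ∀ f h : ℂ → ℂ, MemLp f (ENNReal.ofReal p) μ →
      MemLp h (ENNReal.ofReal p) μ → ∀ c : ℂ,
      S (fun z => c * f z + h z) =ᵐ[μ] fun z => c * S f z + S h z)
    {C : ℝ} (hC : ∀ f, MemLp f (ENNReal.ofReal p) μ →
      eLpNorm (S f) (ENNReal.ofReal p) μ ≤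
        ENNReal.ofReal C * eLpNorm f (ENNReal.ofReal p) μ)
    (hS : ∀ φ : ℂ → ℂ, ContDiff ℝ ((⊤ : ℕ∞) : WithTop ℕ∞) φ → HasCompactSupport φ →
      S (dbar φ) =ᵐ[μ] dz φ) :
    S (efc c) =ᵐ[μ] fun z => c / (starRingEnd ℂ) c * efc c z := by
  set κ : ℂ := c / (starRingEnd ℂ) c with hκ
  have hcc := conj_ne hc
  have hκ0 : κ ≠ 0 := div_ne_zero hc hcc
  have hμ' : μ.map (mc c hc) strip < ⊤ := by rw [strip_mc hc]; exact hμ
  have hzero : S (fun _ => 0) =ᵐ[μ] fun _ => 0 := by
    have h := hlin (fun _ => 0) (fun _ => 0) MemLp.zero' MemLp.zero' 1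
    simp only [mul_zero, add_zero] at h
    filter_upwards [h] with z hz
    linear_combination -hz
  have hsmul : ∀ (a : ℂ) (f : ℂ → ℂ), MemLp f (ENNReal.ofReal p) μ →
      S (fun z => a * f z) =ᵐ[μ] fun z => a * S f z := by
    intro a f hf
    have h := hlin f (fun _ => 0) hf MemLp.zero' a
    simp only [add_zero] at h
    filter_upwards [h, hzero] with z hz hz2
    rw [hz, hz2, add_zero]
  -- the transported operator
  let S' : (ℂ → ℂ) → ℂ → ℂ := fun h z => κ⁻¹ * S (fun u => h (c * u)) (c⁻¹ * z)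
  have key : S' ef =ᵐ[μ.map (mc c hc)] ef := by
    refine fix' hμ' hp S' ?_ ?_ (C := ‖κ⁻¹‖ * C) ?_ ?_
    · intro f hf
      have h1 := hmem _ ((memLp_mc hc).1 hf)
      rw [memLp_mc hc]
      have h2 : (fun z => S' f (c * z)) = fun z => κ⁻¹ * S (fun u => f (c * u)) z := by
        funext z
        change κ⁻¹ * S (fun u => f (c * u)) (c⁻¹ * (c * z)) = _
        rw [← mul_assoc c⁻¹, inv_mul_cancel₀ hc, one_mul]
      rw [h2]
      exact h1.const_mul κ⁻¹
    · intro f h hf hh a
      have h1 := hlin _ _ ((memLp_mc hc).1 hf) ((memLp_mc hc).1 hh) a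
      have h2 := (ae_back (μ := μ) hc (P := fun z => S (fun u => a * f (c * u) + h (c * u)) z =
        a * S (fun u => f (c * u)) z + S (fun u => h (c * u)) z)).2 h1
      filter_upwards [h2] with z hz
      change κ⁻¹ * S (fun u => a * f (c * u) + h (c * u)) (c⁻¹ * z) =
        a * (κ⁻¹ * S (fun u => f (c * u)) (c⁻¹ * z)) + κ⁻¹ * S (fun u => h (c * u)) (c⁻¹ * z)
      rw [hz]
      ring
    · intro f hf
      rw [eLpNorm_mc hc, eLpNorm_mc hc]
      have h2 : (fun z => S' f (c * z)) = fun z => κ⁻¹ * S (fun u => f (c * u)) z := by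
        funext z
        change κ⁻¹ * S (fun u => f (c * u)) (c⁻¹ * (c * z)) = _
        rw [← mul_assoc c⁻¹, inv_mul_cancel₀ hc, one_mul]
      rw [h2]
      have h3 : eLpNorm (fun z => κ⁻¹ * S (fun u => f (c * u)) z) (ENNReal.ofReal p) μ =
          ‖κ⁻¹‖ₑ * eLpNorm (S (fun u => f (c * u))) (ENNReal.ofReal p) μ :=
        eLpNorm_const_smul κ⁻¹ (S (fun u => f (c * u))) _ μ
      rw [h3, ENNReal.ofReal_mul (norm_nonneg _), ofReal_norm, mul_assoc]
      exact mul_le_mul_right (hC _ ((memLp_mc hc).1 hf)) _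
    · intro φ hφ hφc
      have hd : Differentiable ℝ φ := hφ.differentiable (by simp)
      have h1 := hS (fun z => φ (c * z)) (hφ.comp (contDiff_const.mul contDiff_id))
        (hφc.comp_homeomorph (Homeomorph.mulLeft₀ c hc))
      have e1 : dbar (fun z => φ (c * z)) = fun z => (starRingEnd ℂ) c * dbar φ (c * z) :=
        funext fun z => dbar_comp hd c z
      have e2 : dz (fun z => φ (c * z)) = fun z => c * dz φ (c * z) :=
        funext fun z => dz_comp hd c z
      rw [e1, e2] at h1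
      have hA : MemLp (fun z => dbar φ (c * z)) (ENNReal.ofReal p) μ := by
        have h2 : (fun z => dbar φ (c * z)) = fun z => ((starRingEnd ℂ) c)⁻¹ *
            dbar (fun z => φ (c * z)) z := by
          funext z
          rw [dbar_comp hd, ← mul_assoc, inv_mul_cancel₀ hcc, one_mul]
        rw [h2]
        exact (dbar_memLp (hφ.comp (contDiff_const.mul contDiff_id))
          (hφc.comp_homeomorph (Homeomorph.mulLeft₀ c hc)) _).const_mul _
      have h3 := hsmul ((starRingEnd ℂ) c) _ hA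
      have h4 : ∀ᵐ z ∂μ, κ⁻¹ * S (fun u => dbar φ (c * u)) z = dz φ (c * z) := by
        filter_upwards [h1, h3] with z hz hz2
        rw [hz2] at hz
        rw [hκ, inv_div, div_mul_eq_mul_div, hz]
        field_simp
      have h5 := (ae_back (μ := μ) hc (P := fun z => κ⁻¹ * S (fun u => dbar φ (c * u)) z =
        dz φ (c * z))).2 h4
      filter_upwards [h5] with z hz
      rw [← mul_assoc c, mul_inv_cancel₀ hc, one_mul] at hz
      exact hz
  have h4 := (ae_mc hc).1 key
  filter_upwards [h4] with z hz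
  change κ⁻¹ * S (fun u => ef (c * u)) (c⁻¹ * (c * z)) = ef (c * z) at hz
  rw [← mul_assoc c⁻¹, inv_mul_cancel₀ hc, one_mul] at hz
  change S (fun u => ef (c * u)) z = κ * ef (c * z)
  rw [← hz, ← mul_assoc, mul_inv_cancel₀ hκ0, one_mul]

end Pool.Agent.Y443.BE
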