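import Pool.Agent.Y443.BE.PVc

/-!
# The power weights `|z|^(-α)`, `1 < α < 2`

The argument of `Pool.Agent.H751R3.Beu.Weight` (for `α = 3/2`) with a general exponent.
-/

set_option autoImplicit false

namespace Pool.Agent.Y443.BE

open MeasureTheory Filter Topology Set Complex
open Pool.Agent.H751R3.Beu (sq usq meas_sq vol_sq norm_sub_le_of_mem avg_le wm strip meas_strip)

/-- the weight -/
noncomputable def pw (α : ℝ) (z : ℂ) : ℝ := ‖z‖ ^ (-α)

variable {α : ℝ}

theorem measurable_pw : Measurable (pw α) := measurable_norm.pow_const _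

theorem pw_nonneg (z : ℂ) : 0 ≤ pw α z := Real.rpow_nonneg (norm_nonneg _) _

theorem locInt_pw (h2 : α < 2) : LocallyIntegrable (pw α) := by
  refine locallyIntegrable_of_norm_le_rpow (C := 1) (α := α) ?_ ?_ ?_
    measurable_pw.aestronglyMeasurable
  · rw [Complex.finrank_real_complex]; norm_num
  · rw [Complex.finrank_real_complex]; exact_mod_cast h2
  · refine Eventually.of_forall fun z => ?_
    rw [Real.norm_eq_abs, abs_of_nonneg (pw_nonneg z), one_mul]
    exact le_rfl

theorem pw_pos : ∀ᵐ z : ℂ, 0 < pw α z := by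
  have : ∀ᵐ z : ℂ, z ≠ 0 := by
    have h : volume ({0} : Set ℂ) = 0 := by simp
    exact measure_eq_zero_iff_ae_notMem.1 h
  filter_upwards [this] with z hz
  exact Real.rpow_pos_of_pos (norm_pos_iff.2 hz) _

theorem intOn_ball' (h2 : α < 2) (R : ℝ) : IntegrableOn (pw α) (Metric.ball 0 R) := by
  have h := (locInt_pw h2).integrableOn_isCompact (isCompact_closedBall (0 : ℂ) R)
  exact h.mono_set Metric.ball_subset_closedBall

/-- the integral over the unit ball -/
noncomputable def k1 (α : ℝ) : ℝ := ∫ z in Metric.ball (0 : ℂ) 1, pw α z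

theorem k1_nonneg : 0 ≤ k1 α := integral_nonneg fun z => pw_nonneg z

theorem integral_ball' {R : ℝ} (hR : 0 < R) :
    ∫ z in Metric.ball (0 : ℂ) R, pw α z = k1 α * R ^ (2 - α) := by
  have h1 := Measure.integral_comp_smul volume
    (fun z : ℂ => (Metric.ball (0 : ℂ) R).indicator (pw α) z) R
  rw [Complex.finrank_real_complex, integral_indicator Metric.isOpen_ball.measurableSet] at h1
  have h2 : (fun z : ℂ => (Metric.ball (0 : ℂ) R).indicator (pw α) (R • z)) =
      fun z => R ^ (-α) * (Metric.ball (0 : ℂ) 1).indicator (pw α) z := by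
    funext z
    have h3 : R • z ∈ Metric.ball (0 : ℂ) R ↔ z ∈ Metric.ball (0 : ℂ) 1 := by
      simp only [mem_ball_zero_iff, norm_smul, Real.norm_eq_abs, abs_of_pos hR]
      constructor
      · intro h; nlinarith
      · intro h; nlinarith
    by_cases h : z ∈ Metric.ball (0 : ℂ) 1
    · rw [indicator_of_mem h, indicator_of_mem (h3.2 h)]
      unfold pw
      rw [norm_smul, Real.norm_eq_abs, abs_of_pos hR, Real.mul_rpow hR.le (norm_nonneg _)]
    · rw [indicator_of_notMem h, indicator_of_notMem (fun h4 => h (h3.1 h4)), mul_zero]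
  rw [h2, integral_const_mul, integral_indicator Metric.isOpen_ball.measurableSet] at h1
  change R ^ (-α) * k1 α = _ at h1
  have h4 : |(R ^ 2)⁻¹| = (R ^ 2)⁻¹ := abs_of_pos (by positivity)
  rw [h4, smul_eq_mul] at h1
  have h5 : ∫ z in Metric.ball (0 : ℂ) R, pw α z = R ^ 2 * (R ^ (-α) * k1 α) := by
    rw [h1]; field_simp
  rw [h5, ← Real.rpow_natCast R 2, ← mul_assoc, ← Real.rpow_add hR, mul_comm]
  congr 2

theorem lintegral_ball' (h2 : α < 2) {R : ℝ} (hR : 0 < R) :
    ∫⁻ z in Metric.ball (0 : ℂ) R, ENNReal.ofReal (pw α z) =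
      ENNReal.ofReal (k1 α * R ^ (2 - α)) := by
  rw [← integral_ball' hR, ofReal_integral_eq_lintegral_ofReal (intOn_ball' h2 R)
    (Eventually.of_forall pw_nonneg)]

theorem pw_Ap (h1 : 0 < α) (h2 : α < 2) {p : ℝ} (hp : 1 < p) (a b : ℂ) (hb : b ≠ 0) :
    ((∫⁻ z in sq a b, ENNReal.ofReal (pw α z)) / volume (sq a b)) *
      ((∫⁻ z in sq a b, ENNReal.ofReal (pw α z ^ (-1 / (p - 1)))) / volume (sq a b)) ^
        (p - 1) ≤ ENNReal.ofReal (4 ^ α + 36 * k1 α) := by
  have hp1 : 0 < p - 1 := by linarith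
  obtain ⟨r, hr'⟩ : ∃ r : ℝ, r = ‖b‖ := ⟨_, rfl⟩
  have hr : 0 < r := by rw [hr']; exact norm_pos_iff.2 hb
  have hw' : ∀ z : ℂ, pw α z ^ (-1 / (p - 1)) = ‖z‖ ^ (α / (p - 1)) := by
    intro z
    unfold pw
    rw [← Real.rpow_mul (norm_nonneg _)]
    congr 1
    field_simp
  have hβ : 0 ≤ α / (p - 1) := by positivity
  have h40 : (0 : ℝ) ≤ 4 ^ α := by positivity
  have hcomb : ∀ {A B : ℝ}, 0 ≤ A → 0 ≤ B →
      (∫⁻ z in sq a b, ENNReal.ofReal (pw α z)) / volume (sq a b) ≤ ENNReal.ofReal A →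
      (∫⁻ z in sq a b, ENNReal.ofReal (pw α z ^ (-1 / (p - 1)))) / volume (sq a b) ≤
        ENNReal.ofReal (B ^ (α / (p - 1))) →
      A * B ^ α ≤ 4 ^ α + 36 * k1 α →
      ((∫⁻ z in sq a b, ENNReal.ofReal (pw α z)) / volume (sq a b)) *
      ((∫⁻ z in sq a b, ENNReal.ofReal (pw α z ^ (-1 / (p - 1)))) / volume (sq a b)) ^
        (p - 1) ≤ ENNReal.ofReal (4 ^ α + 36 * k1 α) := by
    intro A B hA hB h1 h2 h3
    refine (mul_le_mul' h1 (ENNReal.rpow_le_rpow h2 hp1.le)).trans ?_
    rw [ENNReal.ofReal_rpow_of_nonneg (Real.rpow_nonneg hB _) hp1.le, ← Real.rpow_mul hB,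
      div_mul_cancel₀ _ hp1.ne', ← ENNReal.ofReal_mul hA]
    exact ENNReal.ofReal_le_ofReal h3
  have hc : 0 ≤ k1 α := k1_nonneg
  rcases le_or_gt (4 * r) ‖a‖ with h | h
  · -- far from the origin
    have ha : 0 < ‖a‖ := by linarith
    have hz : ∀ z ∈ sq a b, ‖a‖ / 2 ≤ ‖z‖ ∧ ‖z‖ ≤ 2 * ‖a‖ := by
      intro z hz
      have h1 := norm_sub_le_of_mem hz
      rw [← hr'] at h1
      have h2 : ‖a‖ ≤ ‖z‖ + ‖z - a‖ := by
        have := norm_sub_le z (z - a)
        rwa [sub_sub_cancel] at this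
      have h3 : ‖z‖ ≤ ‖z - a‖ + ‖a‖ := by
        have := norm_add_le (z - a) a
        rwa [sub_add_cancel] at this
      constructor <;> linarith
    refine hcomb (A := (‖a‖ / 2) ^ (-α)) (B := 2 * ‖a‖)
      (by positivity) (by positivity) ?_ ?_ ?_
    · refine avg_le a b fun z h4 => ENNReal.ofReal_le_ofReal ?_
      exact Real.rpow_le_rpow_of_nonpos (by positivity) (hz z h4).1 (by linarith)
    · refine avg_le a b fun z h4 => ENNReal.ofReal_le_ofReal ?_
      rw [hw']
      exact Real.rpow_le_rpow (norm_nonneg _) (hz z h4).2 hβ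
    · have h5 : (2 * ‖a‖) ^ α = (4 : ℝ) ^ α * (‖a‖ / 2) ^ α := by
        rw [← Real.mul_rpow (by norm_num) (by positivity)]
        congr 1; ring
      have h7 : (‖a‖ / 2) ^ (-α) * (‖a‖ / 2) ^ α = 1 := by
        rw [← Real.rpow_add (by positivity)]
        simp
      rw [h5]
      calc (‖a‖ / 2) ^ (-α) * ((4 : ℝ) ^ α * (‖a‖ / 2) ^ α) =
            (4 : ℝ) ^ α * ((‖a‖ / 2) ^ (-α) * (‖a‖ / 2) ^ α) := by ring
        _ ≤ _ := by rw [h7]; linarith
  · -- close to the origin
    have hz : ∀ z ∈ sq a b, ‖z‖ < 6 * r := by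
      intro z hz
      have h1 := norm_sub_le_of_mem hz
      rw [← hr'] at h1
      have h3 : ‖z‖ ≤ ‖z - a‖ + ‖a‖ := by
        have := norm_add_le (z - a) a
        rwa [sub_add_cancel] at this
      linarith
    refine hcomb (A := k1 α * (6 * r) ^ (2 - α) / r ^ 2) (B := 6 * r)
      (by positivity) (by positivity) ?_ ?_ ?_
    · rw [vol_sq, ← hr', ENNReal.ofReal_div_of_pos (by positivity),
        ← lintegral_ball' h2 (by positivity)]
      refine ENNReal.div_le_div_right (lintegral_mono_set fun z h4 => ?_) _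
      rw [mem_ball_zero_iff]
      exact hz z h4
    · refine avg_le a b fun z h4 => ENNReal.ofReal_le_ofReal ?_
      rw [hw']
      exact Real.rpow_le_rpow (norm_nonneg _) (hz z h4).le hβ
    · have h5 : (6 * r) ^ (2 - α) * (6 * r) ^ α = 36 * r ^ 2 := by
        rw [← Real.rpow_add (by positivity)]
        norm_num
        ring
      have h6 : k1 α * (6 * r) ^ (2 - α) / r ^ 2 * (6 * r) ^ α =
          k1 α * ((6 * r) ^ (2 - α) * (6 * r) ^ α) / r ^ 2 := by ring
      rw [h6, h5]
      have : k1 α * (36 * r ^ 2) / r ^ 2 = 36 * k1 α := by field_simp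
      rw [this]; linarith

/-! ### Strips through the origin have finite mass -/

theorem intOn_strip' (h1 : 1 < α) (h2 : α < 2) : IntegrableOn (pw α) strip := by
  have hF : Integrable (fun z : ℂ => (Icc (-2 : ℝ) 2).indicator (fun _ => (1 : ℝ)) z.re *
      (1 + ‖z.im‖) ^ (-α)) := by
    have h1 : Integrable (fun q : ℝ × ℝ => (Icc (-2 : ℝ) 2).indicator (fun _ => (1 : ℝ)) q.1 *
        (1 + ‖q.2‖) ^ (-α)) := by
      have ha : Integrable ((Icc (-2 : ℝ) 2).indicator (fun _ => (1 : ℝ))) :=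
        (integrableOn_const (by simp)).integrable_indicator measurableSet_Icc
      have hb : Integrable fun y : ℝ => (1 + ‖y‖) ^ (-α) := by
        apply integrable_one_add_norm
        rw [Module.finrank_self]; exact_mod_cast h1
      exact ha.mul_prod hb
    exact (Complex.volume_preserving_equiv_real_prod.integrable_comp_emb
      Complex.measurableEquivRealProd.measurableEmbedding).2 h1
  have h2' : IntegrableOn (pw α) (strip \ Metric.ball 0 1) := by
    refine Integrable.mono' ((hF.const_mul ((2 : ℝ) ^ α)).integrableOn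
      (s := strip \ Metric.ball 0 1)) measurable_pw.aestronglyMeasurable ?_
    rw [ae_restrict_iff' (meas_strip.diff Metric.isOpen_ball.measurableSet)]
    refine Eventually.of_forall fun z hz => ?_
    obtain ⟨hz1, hz2⟩ := hz
    have hz3 : 1 ≤ ‖z‖ := by
      rw [mem_ball_zero_iff, not_lt] at hz2; exact hz2
    have hz4 : z.re ∈ Icc (-2 : ℝ) 2 := by
      rw [mem_Icc]; exact abs_le.1 hz1
    rw [indicator_of_mem hz4, one_mul, Real.norm_eq_abs, abs_of_nonneg (pw_nonneg z)]
    have h3 : 1 + ‖z.im‖ ≤ 2 * ‖z‖ := by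
      have := Complex.abs_im_le_norm z
      rw [Real.norm_eq_abs]; linarith
    have h4 : (2 * ‖z‖) ^ (-α) ≤ (1 + ‖z.im‖) ^ (-α) :=
      Real.rpow_le_rpow_of_nonpos (by positivity) h3 (by linarith)
    have h5 : pw α z = (2 : ℝ) ^ α * (2 * ‖z‖) ^ (-α) := by
      unfold pw
      rw [Real.mul_rpow (by norm_num) (norm_nonneg _), ← mul_assoc,
        ← Real.rpow_add (by norm_num)]
      simp
    rw [h5]
    exact mul_le_mul_of_nonneg_left h4 (by positivity)
  refine ((intOn_ball' h2 1).union h2').mono_set fun z hz => ?_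
  by_cases h : z ∈ Metric.ball (0 : ℂ) 1
  · left; exact h
  · right; exact ⟨hz, h⟩

theorem meas_stripc (c : ℂ) : MeasurableSet {z : ℂ | |(c * z).re| ≤ 2} := by
  apply measurableSet_le _ measurable_const
  exact (Complex.continuous_re.comp (continuous_const.mul continuous_id)).abs.measurable

theorem strip_finite (h1 : 1 < α) (h2 : α < 2) {c : ℂ} (hc : c ≠ 0) :
    wm (pw α) {z | |(c * z).re| ≤ 2} < ⊤ := by
  have hpos := norm_pos_iff.2 hc
  have h3 : Integrable (strip.indicator (pw α)) :=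
    (integrable_indicator_iff meas_strip).2 (intOn_strip' h1 h2)
  have h4 := (integrable_comp_mc hc h3).const_mul (‖c‖ ^ α)
  have h5 : (fun z => ‖c‖ ^ α * strip.indicator (pw α) (c * z)) =
      {z : ℂ | |(c * z).re| ≤ 2}.indicator (pw α) := by
    funext z
    by_cases hz : |(c * z).re| ≤ 2
    · rw [indicator_of_mem (show c * z ∈ strip from hz),
        indicator_of_mem (show z ∈ {z : ℂ | |(c * z).re| ≤ 2} from hz)]
      unfold pw
      rw [norm_mul, Real.mul_rpow (norm_nonneg _) (norm_nonneg _), ← mul_assoc,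
        ← Real.rpow_add hpos]
      simp
    · rw [indicator_of_notMem (show c * z ∉ strip from hz),
        indicator_of_notMem (show z ∉ {z : ℂ | |(c * z).re| ≤ 2} from hz), mul_zero]
  rw [h5, integrable_indicator_iff (meas_stripc c)] at h4
  unfold wm
  rw [withDensity_apply _ (meas_stripc c)]
  have h := h4.2
  rw [hasFiniteIntegral_iff_ofReal (Eventually.of_forall pw_nonneg)] at h
  exact h

/-- The measure of a locally integrable nonnegative weight is finite on compact sets. -/
theorem wm_compact {w : ℂ → ℝ} (hw : LocallyIntegrable w) : IsFiniteMeasureOnCompacts (wm w) := by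
  refine ⟨fun K hK => ?_⟩
  unfold wm
  rw [withDensity_apply _ hK.measurableSet]
  have h := (hw.integrableOn_isCompact hK).2
  refine lt_of_le_of_lt (lintegral_mono fun z => ?_) h
  rw [← ofReal_norm]
  exact ENNReal.ofReal_le_ofReal (le_abs_self _)

/-- An everywhere continuous function which vanishes almost everywhere for a positive weight
vanishes identically. -/
theorem zero_of_ae {w : ℂ → ℝ} (hm : AEMeasurable w) (hw : ∀ᵐ z : ℂ, 0 < w z) {f : ℂ → ℂ}
    (hf : Continuous f) (h : f =ᵐ[wm w] 0) : ∀ z, f z = 0 := by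
  have h1 : f =ᵐ[volume] 0 := by
    have h2 : ∀ᵐ z ∂(wm w), f z = 0 := h
    unfold wm at h2
    rw [ae_withDensity_iff' hm.ennreal_ofReal] at h2
    filter_upwards [h2, hw] with z hz hz2
    exact hz (by simpa using hz2)
  have h3 := (Continuous.ae_eq_iff_eq volume hf continuous_zero).1 h1
  exact fun z => congrFun h3 z

end Pool.Agent.Y443.BE
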